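import Pool.Agent.helper17.MLG.Spec

/-!
# mlg:FIN: sets of finite perimeter of every volume
-/

set_option autoImplicit false
set_option linter.unusedSectionVars false

namespace Pool.Agent.MLG

open MeasureTheory Set Filter Topology Module
open scoped ENNReal ContDiff

theorem FIN (hMES : MES_stmt) (hGRR : GRR_stmt) (hCOA : COA_stmt) (hPER : PER_stmt) (hOVL : OVL_stmt) : FIN_stmt := by
  intro V _ _ _ _ _ _ hV hn v hv
  obtain ⟨hhaar, -, -⟩ := hMES V hV
  obtain ⟨-, hgc, -, -, -, -, hgs, -⟩ := hGRR V hV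
  obtain ⟨-, -, -, hPtr, hPsub⟩ := hPER V hV
  haveI := top hV
  haveI := hhaar
  haveI : Nontrivial V := Module.nontrivial_of_finrank_pos (R := ℝ) (by omega)
  haveI : NoncompactSpace V := NormedSpace.noncompactSpace ℝ V
  have huniv : vol V univ = ⊤ := measure_univ_of_isMulLeftInvariant (vol V)
  -- a large ball
  obtain ⟨N, hN⟩ : ∃ N : ℕ, ENNReal.ofReal v < vol V (Metric.closedBall (0 : V) N) := by
    have hmono : Monotone fun N : ℕ => Metric.closedBall (0 : V) (N : ℝ) := fun a b hab =>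
      Metric.closedBall_subset_closedBall (Nat.cast_le.2 hab)
    have h1 := tendsto_measure_iUnion_atTop (μ := vol V) hmono
    rw [Metric.iUnion_closedBall_nat, huniv] at h1
    exact (h1.eventually (lt_mem_nhds ENNReal.ofReal_lt_top)).exists
  -- the cut-off function
  have hNn : (0 : ℝ) ≤ N := Nat.cast_nonneg N
  obtain ⟨w, hw1, hw2, hw3, hw4, hw5⟩ : ∃ w : V → ℝ, ContDiff ℝ ∞ w ∧ HasCompactSupport w ∧ (∀ x, 0 ≤ w x) ∧
      (∀ x, w x ≤ 1) ∧ ∀ x ∈ Metric.closedBall (0 : V) N, w x = 1 := by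
    let f : ContDiffBump (0 : V) := ⟨N + 1, N + 2, by linarith, by linarith⟩
    refine ⟨f, f.contDiff, f.hasCompactSupport, fun x => f.nonneg, fun x => f.le_one, fun x hx => ?_⟩
    apply f.one_of_mem_closedBall
    exact Metric.closedBall_subset_closedBall (by show (N : ℝ) ≤ N + 1; linarith) hx
  have hwU : IsU w := ⟨hw1.continuous.measurable, hw3, hw4⟩
  have hgw : ∫⁻ x, ‖gr w x‖ₑ ∂(vol V) < ⊤ := by
    have h1 : Integrable (gr w) (vol V) :=
      (hgc w (hw1.of_le (by norm_cast))).integrable_of_hasCompactSupport (hgs w hw2)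
    exact h1.2
  obtain ⟨t, ht, hper⟩ : ∃ t ∈ Ioo (0 : ℝ) 1, per {x | t < w x} < ⊤ := by
    by_contra hcon
    push Not at hcon
    have h1 : ∫⁻ t in Ioo (0 : ℝ) 1, per {x | t < w x} = ∫⁻ _ in Ioo (0 : ℝ) 1, (⊤ : ℝ≥0∞) :=
      setLIntegral_congr_fun measurableSet_Ioo fun t ht => top_le_iff.1 (hcon t ht)
    have h2 : ∫⁻ _ in Ioo (0 : ℝ) 1, (⊤ : ℝ≥0∞) = ⊤ := by
      rw [setLIntegral_const, Real.volume_Ioo]
      norm_num
    have h3 := hCOA V hV w hw1 hwU
    rw [h1, h2] at h3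
    exact absurd (lt_of_le_of_lt h3 hgw) (lt_irrefl _)
  set A : Set V := {x | t < w x} with hA
  have hAm : MeasurableSet A := measurableSet_lt measurable_const hwU.meas
  have hAfin : vol V A ≠ ⊤ := by
    have h1 : A ⊆ tsupport w := by
      intro x hx
      apply subset_tsupport
      have h2 : t < w x := hx
      exact (ht.1.trans h2).ne'
    exact ((measure_mono h1).trans_lt (IsCompact.measure_lt_top hw2)).ne
  have hAv : ENNReal.ofReal v ≤ vol V A := by
    refine hN.le.trans (measure_mono fun x hx => ?_)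
    show t < w x
    rw [hw5 x hx]
    exact ht.2
  obtain ⟨g, hg⟩ := hOVL V hV hn A hAm hAfin (ENNReal.ofReal v) (ENNReal.ofReal_pos.2 hv) hAv
  have hgA : MeasurableSet ((fun x => g * x) '' A) :=
    (Homeomorph.mulLeft g).measurableEmbedding.measurableSet_image.2 hAm
  refine ⟨A ∩ (fun x => g * x) '' A, hAm.inter hgA, hg, ?_⟩
  have h1 := hPsub A ((fun x => g * x) '' A) hAm hgA
  rw [hPtr g A hAm] at h1
  exact (le_self_add.trans h1).trans_lt (ENNReal.add_lt_top.2 ⟨hper, hper⟩)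

end Pool.Agent.MLG
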